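import Pool.Agent.W559.Wr.Stm

/-!
# The permutations of the factors extend to the field generated by linearly disjoint copies
-/

set_option autoImplicit false

open TensorProduct

universe u

namespace Pool.Agent.W45.WR
open Pool.Agent.W559.Wr

theorem frac_ext {k M A : Type u} [Field k] [Field M] [Algebra k M] [CommRing A] [Algebra k A]
    (α β : A →ₐ[k] M) (hα : Function.Injective α) (hβ : Function.Injective β)
    (h1 : IntermediateField.adjoin k (Set.range α) = ⊤)
    (h2 : IntermediateField.adjoin k (Set.range β) = ⊤) :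
    ∃ σ : M ≃ₐ[k] M, ∀ a, σ (α a) = β a := by
  let _ : Algebra A M := α.toRingHom.toAlgebra
  have : FaithfulSMul A M := (faithfulSMul_iff_algebraMap_injective A M).2 hα
  have : IsFractionRing A M := by
    apply IsFractionRing.of_field
    intro z
    have hz : z ∈ IntermediateField.adjoin k (Set.range α) := by rw [h1]; trivial
    obtain ⟨r, hr, s, hs, e⟩ := IntermediateField.mem_adjoin_iff_div.1 hz
    rw [← AlgHom.coe_range, Algebra.adjoin_eq] at hr hs
    obtain ⟨x, rfl⟩ := hr
    obtain ⟨y, rfl⟩ := hs
    exact ⟨x, y, e⟩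
  have : IsDomain A := hα.isDomain α.toRingHom
  let f : M →+* M := IsFractionRing.lift (g := β.toRingHom) hβ
  have hf : ∀ a, f (α a) = β a := fun a => IsFractionRing.lift_algebraMap hβ a
  let F : M →ₐ[k] M := { f with
    commutes' := fun r => by
      have := hf (algebraMap k A r)
      rw [α.commutes, β.commutes] at this
      exact this }
  have hF : ∀ a, F (α a) = β a := hf
  have hs : Function.Surjective F := by
    rw [← AlgHom.fieldRange_eq_top, ← top_le_iff, ← h2, IntermediateField.adjoin_le_iff]
    rintro _ ⟨a, rfl⟩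
    exact ⟨α a, hF a⟩
  exact ⟨AlgEquiv.ofBijective F ⟨F.injective, hs⟩, hF⟩

/-- the multiplication map as an algebra homomorphism -/
theorem mul_hom {k M : Type u} [Field k] [Field M] [Algebra k M] {J : Type} [Fintype J]
    {K : J → Type u} [∀ j, Field (K j)] [∀ j, Algebra k (K j)] (e : ∀ j, K j →ₐ[k] M) :
    ∃ α : (⨂[k] j, K j) →ₐ[k] M, (∀ a, α a = mulM e a) ∧
      ∀ x : ∀ j, K j, α (PiTensorProduct.tprod k x) = ∏ j, e j (x j) := by
  have h0 : ∀ x : ∀ j, K j, ((MultilinearMap.mkPiAlgebra k J M).compLinearMap
      fun j => (e j).toLinearMap) x = ∏ j, e j (x j) := by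
    intro x
    rw [MultilinearMap.compLinearMap_apply, MultilinearMap.mkPiAlgebra_apply]
    rfl
  refine ⟨PiTensorProduct.liftAlgHom ((MultilinearMap.mkPiAlgebra k J M).compLinearMap
    fun j => (e j).toLinearMap) ?_ ?_, ?_, ?_⟩
  · rw [h0]
    exact Finset.prod_eq_one fun j _ => map_one (e j)
  · intro x y
    rw [h0, h0, h0, ← Finset.prod_mul_distrib]
    exact Finset.prod_congr rfl fun j _ => map_mul (e j) _ _
  · intro a
    rfl
  · intro x
    exact (PiTensorProduct.lift.tprod x).trans (h0 x)

theorem single_prod {k M : Type u} [Field k] [Field M] [Algebra k M] {J : Type} [Fintype J]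
    [DecidableEq J] {K : J → Type u} [∀ j, Field (K j)] [∀ j, Algebra k (K j)]
    (e : ∀ j, K j →ₐ[k] M) (i : J) (x : K i) : ∏ j, e j (Pi.mulSingle i x j) = e i x := by
  rw [Finset.prod_eq_single i]
  · rw [Pi.mulSingle_eq_same]
  · intro j _ hj
    rw [Pi.mulSingle_eq_of_ne hj, map_one]
  · intro h
    exact absurd (Finset.mem_univ i) h

theorem adjoin_mul {k M : Type u} [Field k] [Field M] [Algebra k M] {J : Type} [Fintype J]
    {K : J → Type u} [∀ j, Field (K j)] [∀ j, Algebra k (K j)]
    (e : ∀ j, K j →ₐ[k] M) (α : (⨂[k] j, K j) →ₐ[k] M)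
    (h : ∀ x : ∀ j, K j, α (PiTensorProduct.tprod k x) = ∏ j, e j (x j)) :
    IntermediateField.adjoin k (Set.range α) = ⨆ i, (e i).fieldRange := by
  classical
  apply le_antisymm
  · rw [IntermediateField.adjoin_le_iff]
    rintro _ ⟨a, rfl⟩
    induction a using PiTensorProduct.induction_on with
    | smul_tprod r x =>
      rw [map_smul, h]
      apply IntermediateField.smul_mem
      apply prod_mem
      intro i _
      exact (le_iSup (fun i => (e i).fieldRange) i) ⟨x i, rfl⟩
    | add a b ha hb =>
      rw [map_add]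
      exact add_mem ha hb
  · rw [iSup_le_iff]
    rintro i _ ⟨x, rfl⟩
    apply IntermediateField.subset_adjoin
    exact ⟨PiTensorProduct.tprod k (Pi.mulSingle i x), by rw [h, single_prod]; rfl⟩

theorem liftStm : LiftStm.{u} := by
  intro k K M _ _ _ _ _ ι _ e he hM g
  classical
  obtain ⟨α, h1, h2⟩ := mul_hom e
  obtain ⟨β, h3, h4⟩ := mul_hom fun i => e (g i)
  have hα : Function.Injective α := by
    intro a b hab
    rw [h1, h1] at hab
    exact he hab
  have hre : ∀ a, β a = α (PiTensorProduct.reindex k (fun _ : ι => K) g a) := by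
    intro a
    induction a using PiTensorProduct.induction_on with
    | smul_tprod r x =>
      rw [map_smul, h4, map_smul, PiTensorProduct.reindex_tprod, map_smul, h2]
      congr 1
      exact Fintype.prod_equiv g _ _ fun i => by rw [Equiv.symm_apply_apply]
    | add a b ha hb =>
      rw [map_add, map_add, map_add, ha, hb]
  have hβ : Function.Injective β := by
    intro a b hab
    rw [hre, hre] at hab
    exact (PiTensorProduct.reindex k (fun _ : ι => K) g).injective (hα hab)
  have h5 : IntermediateField.adjoin k (Set.range α) = ⊤ := by rw [adjoin_mul e α h2, hM]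
  have h6 : IntermediateField.adjoin k (Set.range β) = ⊤ := by
    rw [adjoin_mul (fun i => e (g i)) β h4, ← hM]
    exact g.iSup_comp (g := fun i => (e i).fieldRange)
  obtain ⟨σ, hσ⟩ := frac_ext α β hα hβ h5 h6
  refine ⟨σ, fun i x => ?_⟩
  have h7 := hσ (PiTensorProduct.tprod k (Pi.mulSingle i x))
  rw [h2, h4, single_prod, single_prod (fun i => e (g i))] at h7
  exact h7

end Pool.Agent.W45.WR
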